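import Mathlib

/-!
# A coefficient of `F^(q-1) ∂F` in characteristic `p`, `q = p^k`
-/

set_option autoImplicit false

namespace Pool.Agent.Y108.QG

open MvPolynomial Finset

section Base

variable {R : Type*} [CommRing R] {I : Type*}

/-- A universal identity. -/
theorem coeff_key {q : ℕ} (hq : 0 < q) (F : MvPolynomial I R) (l : I) (s : I →₀ ℕ)
    (hs : s l = q - 1) :
    coeff s (F ^ (q - 1) * pderiv l F) = coeff (s + Finsupp.single l 1) (F ^ q) := by
  obtain ⟨φ, hφ⟩ : ∃ φ : MvPolynomial R ℤ →+* R, Function.Surjective φ :=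
    ⟨(aeval (R := ℤ) (id : R → R)).toRingHom, fun r => ⟨X r, by simp⟩⟩
  obtain ⟨G, rfl⟩ := MvPolynomial.map_surjective φ hφ F
  rw [pderiv_map, ← map_pow, ← map_pow, ← map_mul, coeff_map, coeff_map]
  congr 1
  have h1 : (q : MvPolynomial R ℤ) * coeff s (G ^ (q - 1) * pderiv l G) =
      (q : MvPolynomial R ℤ) * coeff (s + Finsupp.single l 1) (G ^ q) := by
    have h2 : pderiv l (G ^ q) = C (q : MvPolynomial R ℤ) * (G ^ (q - 1) * pderiv l G) := by
      rw [pderiv_pow, mul_assoc]
      simp
    have h3 := congrArg (coeff s) h2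
    rw [coeff_pderiv, coeff_C_mul, hs] at h3
    rw [← h3]
    have h4 : ((q - 1 : ℕ) : MvPolynomial R ℤ) + 1 = (q : MvPolynomial R ℤ) := by
      have : q = (q - 1) + 1 := by omega
      conv_rhs => rw [this]
      push_cast
      ring
    rw [h4]
    ring
  have h5 : (q : MvPolynomial R ℤ) ≠ 0 := by
    exact_mod_cast hq.ne'
  exact mul_left_cancel₀ h5 h1

variable (p k : ℕ) [Fact p.Prime] [CharP R p]

/-- The exponents of a `q`-th power. -/
theorem coeff_pow_q (F : MvPolynomial I R) (s : I →₀ ℕ) (hs : ∀ u, s ≠ p ^ k • u) :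
    coeff s (F ^ p ^ k) = 0 := by
  classical
  rw [F.as_sum, sum_pow_char_pow, coeff_sum]
  apply Finset.sum_eq_zero
  intro u _
  rw [monomial_pow, coeff_monomial, if_neg]
  exact fun h => hs u h.symm

theorem coeff_pow_q' (F : MvPolynomial I R) (u : I →₀ ℕ) :
    coeff (p ^ k • u) (F ^ p ^ k) = (coeff u F) ^ p ^ k := by
  classical
  have hq : p ^ k ≠ 0 := pow_ne_zero _ (Fact.out : p.Prime).ne_zero
  conv_lhs => rw [F.as_sum, sum_pow_char_pow, coeff_sum]
  simp only [monomial_pow, coeff_monomial]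
  rw [Finset.sum_eq_single u]
  · rw [if_pos rfl]
  · intro v _ hv
    rw [if_neg]
    intro h
    apply hv
    ext i
    have := congrArg (fun w : I →₀ ℕ => w i) h
    simp only [Finsupp.smul_apply, smul_eq_mul] at this
    exact Nat.eq_of_mul_eq_mul_left (Nat.pos_of_ne_zero hq) this
  · intro hu
    rw [notMem_support_iff.1 hu, zero_pow hq, ite_self]

end Base

section Dg

variable {R : Type*} [CommRing R] {I : Type*}

/-- the degree in the variable `i` is at most `N` -/
def Dg (i : I) (N : ℕ) (G : MvPolynomial I R) : Prop := ∀ s : I →₀ ℕ, N < s i → coeff s G = 0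

theorem Dg.add {i : I} {N : ℕ} {G H : MvPolynomial I R} (hG : Dg i N G) (hH : Dg i N H) :
    Dg i N (G + H) := by
  intro s hs
  rw [coeff_add, hG s hs, hH s hs, add_zero]

theorem Dg.neg {i : I} {N : ℕ} {G : MvPolynomial I R} (hG : Dg i N G) : Dg i N (-G) := by
  intro s hs
  rw [coeff_neg, hG s hs, neg_zero]

theorem Dg.mono {i : I} {N M : ℕ} {G : MvPolynomial I R} (hG : Dg i N G) (h : N ≤ M) :
    Dg i M G := fun s hs => hG s (lt_of_le_of_lt h hs)

theorem Dg.mul {i : I} {N M : ℕ} {G H : MvPolynomial I R} (hG : Dg i N G) (hH : Dg i M H) :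
    Dg i (N + M) (G * H) := by
  classical
  intro s hs
  rw [coeff_mul]
  apply Finset.sum_eq_zero
  rintro ⟨a, b⟩ hab
  rw [Finset.HasAntidiagonal.mem_antidiagonal] at hab
  have h1 : a i + b i = s i := by rw [← hab]; rfl
  show coeff a G * coeff b H = 0
  by_cases ha : N < a i
  · rw [hG a ha, zero_mul]
  · rw [hH b (by omega), mul_zero]

theorem Dg.one (i : I) : Dg i 0 (1 : MvPolynomial I R) := by
  classical
  intro s hs
  rw [coeff_one, if_neg]
  rintro rfl
  exact absurd hs (by simp)

theorem Dg.C (i : I) (a : R) : Dg i 0 (MvPolynomial.C a : MvPolynomial I R) := by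
  classical
  intro s hs
  rw [coeff_C, if_neg]
  rintro rfl
  exact absurd hs (by simp)

theorem Dg.X_ne {i j : I} (h : j ≠ i) : Dg i 0 (X j : MvPolynomial I R) := by
  classical
  intro s hs
  rw [coeff_X, if_neg]
  rintro rfl
  rw [Finsupp.single_eq_of_ne (by exact h.symm)] at hs
  exact absurd hs (by simp)

theorem Dg.X_eq (i : I) : Dg i 1 (X i : MvPolynomial I R) := by
  classical
  intro s hs
  rw [coeff_X, if_neg]
  rintro rfl
  rw [Finsupp.single_eq_same] at hs
  exact absurd hs (by simp)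

theorem Dg.pow {i : I} {G : MvPolynomial I R} (hG : Dg i 0 G) (n : ℕ) : Dg i 0 (G ^ n) := by
  induction n with
  | zero => rw [pow_zero]; exact Dg.one i
  | succ n ih => rw [pow_succ]; exact ih.mul hG

theorem Dg.prod {i : I} {J : Type*} (S : Finset J) (G : J → MvPolynomial I R)
    (h : ∀ j ∈ S, Dg i 0 (G j)) : Dg i 0 (∏ j ∈ S, G j) := by
  classical
  induction S using Finset.induction_on with
  | empty => rw [Finset.prod_empty]; exact Dg.one i
  | insert j S hj ih =>
    rw [Finset.prod_insert hj]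
    exact (h j (Finset.mem_insert_self _ _)).mul
      (ih fun k hk => h k (Finset.mem_insert_of_mem hk))

/-- no coefficient with all exponents `< q` -/
def InJ (q : ℕ) (G : MvPolynomial I R) : Prop := ∀ s : I →₀ ℕ, (∀ i, s i < q) → coeff s G = 0

theorem InJ.mul {q : ℕ} {G : MvPolynomial I R} (hG : InJ q G) (H : MvPolynomial I R) :
    InJ q (G * H) := by
  classical
  intro s hs
  rw [coeff_mul]
  apply Finset.sum_eq_zero
  rintro ⟨a, b⟩ hab
  rw [Finset.HasAntidiagonal.mem_antidiagonal] at hab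
  show coeff a G * coeff b H = 0
  rw [hG a, zero_mul]
  intro i
  have h1 : a i + b i = s i := by rw [← hab]; rfl
  have := hs i
  omega

theorem InJ.add {q : ℕ} {G H : MvPolynomial I R} (hG : InJ q G) (hH : InJ q H) :
    InJ q (G + H) := by
  intro s hs
  rw [coeff_add, hG s hs, hH s hs, add_zero]

theorem InJ.X_pow (q : ℕ) (l : I) : InJ q (X l ^ q : MvPolynomial I R) := by
  classical
  intro s hs
  rw [coeff_X_pow, if_neg]
  rintro rfl
  have := hs l
  simp at this

theorem InJ.pow_q (p k : ℕ) [Fact p.Prime] [CharP R p] {h : MvPolynomial I R}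
    (h0 : coeff 0 h = 0) : InJ (p ^ k) (h ^ p ^ k) := by
  intro s hs
  by_cases hu : ∃ u, s = p ^ k • u
  · obtain ⟨u, rfl⟩ := hu
    have hu0 : u = 0 := by
      ext i
      have h1 := hs i
      simp only [Finsupp.smul_apply, smul_eq_mul] at h1
      by_contra hne
      have h2 : 0 < u i := Nat.pos_of_ne_zero hne
      exact absurd h1 (not_lt.2 (Nat.le_mul_of_pos_right _ h2))
    rw [coeff_pow_q', hu0, h0, zero_pow (pow_ne_zero _ (Fact.out : p.Prime).ne_zero)]
  · push Not at hu
    exact coeff_pow_q p k h s hu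

/-- the variable `l` occurs only through the factor -/
theorem coeff_X_pow_mul_dg {l : I} {P : MvPolynomial I R} (hP : Dg l 0 P) (a : ℕ) (s : I →₀ ℕ)
    (hs : a ≠ s l) : coeff s (X l ^ a * P) = 0 := by
  classical
  rw [X_pow_eq_monomial, coeff_monomial_mul']
  split_ifs with h
  · rw [one_mul]
    apply hP
    rw [Finsupp.tsub_apply, Finsupp.single_eq_same]
    have h1 := h l
    rw [Finsupp.single_eq_same] at h1
    omega
  · rfl

end Dg

end Pool.Agent.Y108.QG
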