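import Pool.Agent.Y108.QG.Gen

/-!
# The criterion in terms of monomials
-/

set_option autoImplicit false

namespace Pool.Agent.Y108.QG

open MvPolynomial Finset

variable {K : Type*} [Field K] {I : Type*} [Fintype I] [DecidableEq I]

theorem Dg.pow' {R J : Type*} [CommRing R] {i : J} {N : ℕ} {G : MvPolynomial J R}
    (hG : Dg i N G) (m : ℕ) : Dg i (N * m) (G ^ m) := by
  induction m with
  | zero => rw [pow_zero, mul_zero]; exact Dg.one i
  | succ m ih => rw [pow_succ, Nat.mul_succ]; exact ih.mul hG

theorem dg_sh_monomial (s : I →₀ ℕ) (r : K) (i : I) :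
    Dg i (s i) (sh (monomial s r)) := by
  have h1 : sh (monomial s r : MvPolynomial I K) =
      C (C r) * ((C (X i) + X i) ^ s i *
        ∏ j ∈ Finset.univ.erase i, (C (X j) + X j) ^ s j) := by
    rw [monomial_eq, Finsupp.prod_fintype _ _ (fun i => pow_zero _), map_mul, sh_C, map_prod,
      ← Finset.mul_prod_erase Finset.univ _ (Finset.mem_univ i)]
    simp only [map_pow, sh_X]
  rw [h1]
  have h2 : Dg i (1 * s i) ((C (X i) + X i : MvPolynomial I (MvPolynomial I K)) ^ s i) :=
    Dg.pow' (((Dg.C i _).mono zero_le_one).add (Dg.X_eq i)) _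
  have h3 : Dg i 0 (∏ j ∈ Finset.univ.erase i,
      (C (X j) + X j : MvPolynomial I (MvPolynomial I K)) ^ s j) := by
    apply Dg.prod
    intro j hj
    exact ((Dg.C i _).add (Dg.X_ne (Finset.ne_of_mem_erase hj))).pow _
  have h4 := (Dg.C i (C r : MvPolynomial I K)).mul (h2.mul h3)
  rw [one_mul, add_zero, zero_add] at h4
  exact h4

theorem dg_sh_of_support (l : I) (w : MvPolynomial I K) (hw : ∀ s ∈ w.support, s l = 0) :
    Dg l 0 (sh w) := by
  intro t ht
  have h1 : sh w = ∑ s ∈ w.support, sh (monomial s (coeff s w)) := by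
    conv_lhs => rw [w.as_sum]
    rw [map_sum]
  rw [h1, coeff_sum]
  apply Finset.sum_eq_zero
  intro s hs
  apply dg_sh_monomial s _ l
  rw [hw s hs]
  exact ht

/-- the top coefficient of the witness -/
noncomputable def c1 (K : Type*) [Field K] (q : ℕ) (l : I) : MvPolynomial I K :=
  coeff (omc q l) (sh (monomial (omc q l) 1))

theorem c1_ne (q : ℕ) (l : I) : c1 K q l ≠ 0 := by
  intro h
  have h1 : constantCoeff (c1 K q l) = 1 := by
    unfold c1
    rw [← coeff_map]
    have h2 : MvPolynomial.map constantCoeff (sh (monomial (omc q l) (1 : K))) =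
        monomial (omc q l) 1 := by
      have h3 : ∀ R : Type _, ∀ [CommRing R], (monomial (omc q l) (1 : R) : MvPolynomial I R) =
          ∏ i, X i ^ (omc q l : I →₀ ℕ) i := by
        intro R _
        rw [monomial_eq, Finsupp.prod_fintype _ _ (fun i => pow_zero _), C_1, one_mul]
      rw [h3 K, map_prod, map_prod]
      apply Finset.prod_congr rfl
      intro i _
      rw [map_pow, map_pow, sh_X, map_add, map_C, map_X, constantCoeff_X, C_0, zero_add]
    rw [h2, coeff_monomial, if_pos rfl]
  rw [h, map_zero] at h1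
  exact zero_ne_one h1

variable (p k : ℕ) [Fact p.Prime] [CharP K p]

theorem coeff_sh_split (l : I) (a ρ : I →₀ ℕ) (r : K) :
    coeff (omc (p ^ k) l) (sh (monomial (p ^ k • a + ρ) r)) =
      monomial (p ^ k • a) r * coeff (omc (p ^ k) l) (sh (monomial ρ (1 : K))) := by
  have hq : 0 < p ^ k := pow_pos (Fact.out : p.Prime).pos _
  obtain ⟨M, hM⟩ : ∃ M : MvPolynomial I K, M = monomial a 1 := ⟨_, rfl⟩
  have h1 : (monomial (p ^ k • a + ρ) r : MvPolynomial I K) = C r * M ^ p ^ k * monomial ρ 1 := by
    rw [hM, monomial_pow, one_pow, C_mul_monomial, mul_one, monomial_mul, mul_one]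
  have h2 : (monomial (p ^ k • a) r : MvPolynomial I K) = C r * M ^ p ^ k := by
    rw [hM, monomial_pow, one_pow, C_mul_monomial, mul_one]
  rw [h1, h2, map_mul, map_mul, map_pow, sh_C]
  have h3 : sh M ^ p ^ k = C (M ^ p ^ k) + (sh M - C M) ^ p ^ k := by
    rw [map_pow, ← add_pow_char_pow, add_sub_cancel]
  have h4 : InJ (p ^ k) ((sh M - C M : MvPolynomial I (MvPolynomial I K)) ^ p ^ k) := by
    apply InJ.pow_q
    rw [coeff_sub, coeff_zero_sh, coeff_C, if_pos rfl, sub_self]
  have h5 := (h4.mul (C (C r) * sh (monomial ρ (1 : K)))) (omc (p ^ k) l) (by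
    intro i
    rw [omc_apply]
    split_ifs
    · exact hq
    · omega)
  have h6 : C (C r) * sh M ^ p ^ k * sh (monomial ρ (1 : K)) =
      C (C r * M ^ p ^ k) * sh (monomial ρ (1 : K)) +
      (sh M - C M) ^ p ^ k * (C (C r) * sh (monomial ρ (1 : K))) := by
    rw [h3, C_mul]
    ring
  rw [h6, coeff_add, h5, add_zero, coeff_C_mul]

/-- no monomials with all exponents off `l` congruent to `-1` modulo `q` -/
def NoTop (q : ℕ) (l : I) (w : MvPolynomial I K) : Prop :=
  ∀ s : I →₀ ℕ, (∀ i, i ≠ l → s i % q = q - 1) → coeff s w = 0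

theorem crit (l : I) (w : MvPolynomial I K) (hw : ∀ s ∈ w.support, s l = 0) :
    coeff (omc (p ^ k) l) (sh w) = 0 ↔ NoTop (p ^ k) l w := by
  classical
  have hq : 0 < p ^ k := pow_pos (Fact.out : p.Prime).pos _
  have hdec : ∀ s : I →₀ ℕ, ∃ a ρ : I →₀ ℕ, s = p ^ k • a + ρ ∧ ∀ i, ρ i = s i % p ^ k := by
    intro s
    refine ⟨Finsupp.equivFunOnFinite.symm fun i => s i / p ^ k,
      Finsupp.equivFunOnFinite.symm fun i => s i % p ^ k, ?_, fun i => rfl⟩
    ext i
    exact (Nat.div_add_mod (s i) (p ^ k)).symm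
  have hmon : ∀ s : I →₀ ℕ, s l = 0 → ∀ r : K, coeff (omc (p ^ k) l) (sh (monomial s r)) =
      (if ∀ i, i ≠ l → s i % p ^ k = p ^ k - 1 then monomial (s - omc (p ^ k) l) r else 0) *
        c1 K (p ^ k) l := by
    intro s hs r
    obtain ⟨a, ρ, hsa, hρ⟩ := hdec s
    split_ifs with hc
    · have h1 : ρ = omc (p ^ k) l := by
        ext i
        rw [hρ, omc_apply]
        split_ifs with hi
        · rw [hi, hs, Nat.zero_mod]
        · exact hc i hi
      have h2 : s - omc (p ^ k) l = p ^ k • a := by
        rw [hsa, h1, add_tsub_cancel_right]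
      rw [h2]
      conv_lhs => rw [hsa, coeff_sh_split, h1]
      rfl
    · push Not at hc
      obtain ⟨i, hil, hi⟩ := hc
      rw [hsa, coeff_sh_split, zero_mul, dg_sh_monomial ρ 1 i, mul_zero]
      rw [omc_apply, if_neg hil, hρ]
      have := Nat.mod_lt (s i) hq
      omega
  have hsum : coeff (omc (p ^ k) l) (sh w) = (∑ s ∈ w.support,
      if ∀ i, i ≠ l → s i % p ^ k = p ^ k - 1 then monomial (s - omc (p ^ k) l) (coeff s w)
        else 0) * c1 K (p ^ k) l := by
    have h1 : sh w = ∑ s ∈ w.support, sh (monomial s (coeff s w)) := by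
      conv_lhs => rw [w.as_sum]
      rw [map_sum]
    rw [h1, coeff_sum, Finset.sum_mul]
    apply Finset.sum_congr rfl
    intro s hs
    rw [hmon s (hw s hs)]
  constructor
  · intro h0 s hs
    by_contra hne
    have hmem : s ∈ w.support := mem_support_iff.2 hne
    rw [hsum, mul_eq_zero] at h0
    have h1 := h0.resolve_right (c1_ne (K := K) (p ^ k) l)
    have h2 := congrArg (coeff (s - omc (p ^ k) l)) h1
    rw [coeff_sum, coeff_zero, Finset.sum_eq_single s, if_pos hs, coeff_monomial, if_pos rfl] at h2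
    · exact hne h2
    · intro t ht hts
      split_ifs with hc
      · rw [coeff_monomial, if_neg]
        intro h3
        apply hts
        ext i
        have h4 := congrArg (fun v : I →₀ ℕ => v i) h3
        simp only [Finsupp.tsub_apply, omc_apply] at h4
        by_cases hi : i = l
        · rw [hi, hw t ht, hw s hmem]
        · rw [if_neg hi] at h4
          have h5 := hs i hi
          have h6 := hc i hi
          have h7 := Nat.mod_le (s i) (p ^ k)
          have h8 := Nat.mod_le (t i) (p ^ k)
          omega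
      · exact coeff_zero _
    · intro h
      exact absurd hmem h
  · intro h
    rw [hsum]
    have h1 : ∑ s ∈ w.support, (if ∀ i, i ≠ l → s i % p ^ k = p ^ k - 1 then
        monomial (s - omc (p ^ k) l) (coeff s w) else 0) = 0 := by
      apply Finset.sum_eq_zero
      intro s hs
      split_ifs with hc
      · exact absurd (h s hc) (mem_support_iff.1 hs)
      · rfl
    rw [h1, zero_mul]

end Pool.Agent.Y108.QG
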