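import Pool.Agent.Y108.QG.Good

/-!
# Affine and elementary automorphisms
-/

set_option autoImplicit false

namespace Pool.Agent.Y108.QG

open MvPolynomial Finset
open Pool.Agent.Results.MP_119ce6_al.PositiveChar (lin tr lin_diag lin_transv)

variable {K : Type*} [Field K] {I : Type*} [Fintype I] [DecidableEq I]

variable (p k : ℕ) [Fact p.Prime] [CharP K p]

theorem good_tr (hk : 1 ≤ k) (hI : Nonempty I) (b : I → K) : Good (p ^ k) (tr b) := by
  refine good_of p k hk _ hI.some 1 one_ne_zero fun f => ?_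
  unfold E
  rw [sh_comp (tr b) (AlgHom.id _ _), AlgHom.id_apply, psi_map, C_1, one_mul]
  · rfl
  · intro i
    have : tr b (X i) = X i + C (b i) := by rw [tr, aeval_X]
    rw [this, map_add, sh_X, sh_C, AlgHom.id_apply, map_add]
    ring

/-- the diagonal substitution -/
noncomputable def dg (d : I → K) :
    MvPolynomial I (MvPolynomial I K) →ₐ[MvPolynomial I K] MvPolynomial I (MvPolynomial I K) :=
  aeval fun i => C (C (d i)) * X i

theorem coeff_dg (d : I → K) (G : MvPolynomial I (MvPolynomial I K)) (s : I →₀ ℕ) :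
    coeff s (dg d G) = (∏ i, C (d i) ^ s i) * coeff s G := by
  induction G using MvPolynomial.induction_on' with
  | add G H hG hH => rw [map_add, coeff_add, coeff_add, hG, hH]; ring
  | monomial u a =>
    have h1 : dg d (monomial u a) = monomial u (a * ∏ i, C (d i) ^ u i) := by
      rw [dg, aeval_monomial, Finsupp.prod_fintype _ _ (fun i => pow_zero _), algebraMap_eq,
        monomial_eq, Finsupp.prod_fintype _ _ (fun i => pow_zero _)]
      simp only [mul_pow, Finset.prod_mul_distrib]
      rw [C_mul, map_prod]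
      simp only [map_pow]
      ring
    rw [h1, coeff_monomial, coeff_monomial]
    split_ifs with h
    · rw [h]
      ring
    · rw [mul_zero]

theorem pderiv_dg (d : I → K) (l : I) (F : MvPolynomial I (MvPolynomial I K)) :
    pderiv l (dg d F) = C (C (d l)) * dg d (pderiv l F) := by
  induction F using MvPolynomial.induction_on with
  | C a => simp
  | add F G hF hG => rw [map_add, map_add, map_add, map_add, hF, hG, mul_add]
  | mul_X F i hF =>
    have hX : ∀ i, dg d (X i) = C (C (d i)) * X i := fun i => by rw [dg, aeval_X]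
    rw [map_mul, pderiv_mul, hF, pderiv_mul, map_add, map_mul, map_mul, hX, pderiv_C_mul]
    by_cases hi : i = l
    · subst hi
      rw [pderiv_X_self, map_one]
      ring
    · rw [pderiv_X_of_ne hi, map_zero]
      ring

theorem good_diag (hk : 1 ≤ k) (hI : Nonempty I) (d : I → K) (hd : ∀ i, d i ≠ 0) :
    Good (p ^ k) (lin (Matrix.diagonal d)) := by
  obtain ⟨l⟩ := hI
  refine good_of p k hk _ l (d l * ∏ i, d i ^ (omm (p ^ k) l : I →₀ ℕ) i)
    (mul_ne_zero (hd l) (Finset.prod_ne_zero_iff.2 fun i _ => pow_ne_zero _ (hd i))) fun f => ?_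
  have h1 : ∀ F : MvPolynomial I (MvPolynomial I K), psi (p ^ k) l (dg d F) =
      C (d l * ∏ i, d i ^ (omm (p ^ k) l : I →₀ ℕ) i) * psi (p ^ k) l F := by
    intro F
    rw [psi, pderiv_dg, mul_left_comm, coeff_C_mul, ← map_pow, ← map_mul, coeff_dg, psi, C_mul,
      map_prod]
    simp only [map_pow]
    ring
  unfold E
  rw [sh_comp (lin (Matrix.diagonal d)) (dg d), h1, psi_map]
  · rfl
  · intro i
    rw [lin_diag, map_mul, sh_C, sh_X, dg, aeval_X, C_mul]
    ring

theorem omc_ne {q : ℕ} (hq : 2 ≤ q) {l i : I} (h : i ≠ l) : omc q l ≠ (0 : I →₀ ℕ) := by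
  intro h0
  have h1 := congrArg (fun w : I →₀ ℕ => w i) h0
  simp only [omc_apply, if_neg h, Finsupp.zero_apply] at h1
  omega

theorem good_transv (hk : 1 ≤ k) (a b c' : I) (hab : a ≠ b) (hca : c' ≠ a)
    (hcb : c' ≠ b) (c : K) : Good (p ^ k) (lin (Matrix.transvection a b c)) := by
  have hq := two_le_q p k hk
  refine good_elem p k hk a (C c * X b) ⟨?_, ?_⟩ (omc_ne hq hca) _ ?_ ?_
  · rw [map_mul, sh_C, sh_X]
    exact (Dg.C a _).mul ((Dg.C a _).add (Dg.X_ne (Ne.symm hab)))
  · rw [map_mul, sh_C, sh_X]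
    have h1 : Dg c' 0 (C (C c) * (C (X b) + X b) : MvPolynomial I (MvPolynomial I K)) :=
      (Dg.C c' _).mul ((Dg.C c' _).add (Dg.X_ne (Ne.symm hcb)))
    apply h1
    rw [omc_apply, if_neg hca]
    omega
  · rw [lin_transv, if_pos rfl]
  · intro i hi
    rw [lin_transv, if_neg hi, add_zero]

theorem good_lin (hk : 1 ≤ k) (hcard : 3 ≤ Fintype.card I)
    (M : Matrix I I K) (hM : IsUnit M.det) : Good (p ^ k) (lin M) := by
  have hne : Nonempty I := Fintype.card_pos_iff.1 (by omega)
  refine Matrix.diagonal_transvection_induction_of_det_ne_zero (fun M => Good (p ^ k) (lin M)) M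
    hM.ne_zero ?_ ?_ ?_
  · intro d hd
    rw [Matrix.det_diagonal, Finset.prod_ne_zero_iff] at hd
    exact good_diag p k hk hne d (fun i => hd i (Finset.mem_univ i))
  · intro t
    obtain ⟨c', hc'⟩ : ∃ c', c' ∉ ({t.i, t.j} : Finset I) := by
      by_contra hcon
      push Not at hcon
      have : Fintype.card I ≤ ({t.i, t.j} : Finset I).card :=
        Finset.card_le_card fun x _ => hcon x
      have := Finset.card_le_two (a := t.i) (b := t.j)
      omega
    simp only [Finset.mem_insert, Finset.mem_singleton, not_or] at hc'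
    exact good_transv p k hk t.i t.j c' t.hij hc'.1 hc'.2 t.c
  · intro A B _ _ hA hB
    have : lin (A * B) = (lin B).comp (lin A) := by
      refine MvPolynomial.algHom_ext fun i => ?_
      simp only [AlgHom.comp_apply, lin, aeval_X, map_sum, map_mul, Matrix.mul_apply]
      simp_rw [Finset.mul_sum, Finset.sum_mul]
      rw [Finset.sum_comm]
      refine Finset.sum_congr rfl fun j _ => Finset.sum_congr rfl fun k _ => ?_
      have : (aeval fun i => ∑ j, C (B i j) * (X j : MvPolynomial I K)) (C (A i j)) = C (A i j) := by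
        simp
      rw [this]
      ring
    rw [this]
    exact hB.comp hA

/-- **The converse**: the condition on the top coefficient is necessary. -/
theorem not_good_elem (hk : 1 ≤ k) (l : I) (g : MvPolynomial I K) (hg : Dg l 0 (sh g))
    (hne : ∃ j : I, j ≠ l) (τ : MvPolynomial I K →ₐ[K] MvPolynomial I K) (hl : τ (X l) = X l + g)
    (hi : ∀ i, i ≠ l → τ (X i) = X i) (hgood : Good (p ^ k) τ) :
    coeff (omc (p ^ k) l) (sh g) = 0 := by
  have hq := two_le_q p k hk
  obtain ⟨j, hj⟩ := hne
  obtain ⟨u, hu, h⟩ := hgood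
  have hh : Dg l 0 (sh g - C g : MvPolynomial I (MvPolynomial I K)) := by
    rw [sub_eq_add_neg]
    exact hg.add (Dg.C l g).neg
  have h0 : coeff 0 (sh g - C g : MvPolynomial I (MvPolynomial I K)) = 0 := by
    rw [coeff_sub, coeff_zero_sh, coeff_C, if_pos rfl, sub_self]
  have h1 : E (p ^ k) j (X l : MvPolynomial I K) = 0 := by
    unfold E psi
    rw [sh_X, map_add, pderiv_C, pderiv_X_of_ne (Ne.symm hj), add_zero, mul_zero, coeff_zero]
  have h2 : E (p ^ k) l (τ (X l)) = 0 := by
    rw [E_indep p k hk l j, h, h1, map_zero, mul_zero]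
  rw [fun_elem l g τ hl hi, psi_sb p k hk hh h0, corr p k hh, sh_X, map_add, map_C, map_X] at h2
  obtain ⟨a, ha⟩ : ∃ a, a = (τ : MvPolynomial I K →+* MvPolynomial I K) (X l) := ⟨_, rfl⟩
  rw [← ha] at h2
  have h3 : psi (p ^ k) l (C a + X l : MvPolynomial I (MvPolynomial I K)) = 0 := by
    unfold psi
    rw [map_add, pderiv_C, pderiv_X_self, zero_add, mul_one]
    have h4 : Dg j 0 ((C a + X l : MvPolynomial I (MvPolynomial I K)) ^ (p ^ k - 1)) :=
      ((Dg.C j a).add (Dg.X_ne (Ne.symm hj))).pow _
    apply h4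
    rw [omm_apply, if_neg hj]
    omega
  have h5 : coeff (Finsupp.single l (p ^ k))
      ((C a + X l : MvPolynomial I (MvPolynomial I K)) ^ p ^ k) = 1 := by
    have h6 : Finsupp.single l (p ^ k) = p ^ k • Finsupp.single l 1 := by
      rw [Finsupp.smul_single, smul_eq_mul, mul_one]
    rw [h6, coeff_pow_q', coeff_add, coeff_C, coeff_X]
    rw [if_neg, if_pos rfl, zero_add, one_pow]
    intro h7
    have := congrArg (fun w : I →₀ ℕ => w l) h7
    simp at this
  rw [h3, h5, mul_one, zero_sub, neg_eq_zero, coeff_sub, coeff_C,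
    if_neg (Ne.symm (omc_ne hq hj)), sub_zero] at h2
  exact h2

end Pool.Agent.Y108.QG
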