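import Pool.Agent.Y108.QG.Sub
import Pool.Agent.Results.MP_119ce6_al.PositiveChar

/-!
# The invariant for the powers of `p`
-/

set_option autoImplicit false

namespace Pool.Agent.Y108.QG

open MvPolynomial Finset
open Pool.Agent.Results.MP_119ce6_al.PositiveChar (lin tr pd_comm lin_diag lin_transv)

variable {K : Type*} [Field K] {I : Type*} [Fintype I] [DecidableEq I]

/-- the shift `f(x) ↦ f(x + t)` -/
noncomputable def sh : MvPolynomial I K →ₐ[K] MvPolynomial I (MvPolynomial I K) :=
  aeval fun i => C (X i) + X i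

theorem sh_X (i : I) : (sh : MvPolynomial I K →ₐ[K] _) (X i) = C (X i) + X i := by
  rw [sh, aeval_X]

theorem sh_C (a : K) : (sh : MvPolynomial I K →ₐ[K] MvPolynomial I (MvPolynomial I K)) (C a) =
    C (C a) := by
  have : (C a : MvPolynomial I K) = algebraMap K _ a := rfl
  rw [this, AlgHom.commutes]
  rfl

theorem coeff_zero_sh (f : MvPolynomial I K) : coeff 0 (sh f) = f := by
  induction f using MvPolynomial.induction_on with
  | C a => rw [sh_C, coeff_C, if_pos rfl]
  | add f g hf hg => rw [map_add, coeff_add, hf, hg]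
  | mul_X f i hf =>
    rw [map_mul, sh_X, mul_add, coeff_add, mul_comm _ (C (X i)), coeff_C_mul, hf, coeff_mul_X',
      if_neg (by simp), add_zero, mul_comm]

/-- the invariant -/
noncomputable def E (q : ℕ) (l : I) (f : MvPolynomial I K) : MvPolynomial I K := psi q l (sh f)

/-- good endomorphisms -/
def Good (q : ℕ) (τ : MvPolynomial I K →ₐ[K] MvPolynomial I K) : Prop :=
  ∃ u : K, u ≠ 0 ∧ ∀ j f, E q j (τ f) = C u * τ (E q j f)

variable (p k : ℕ) [Fact p.Prime] [CharP K p]

theorem two_le_q (hk : 1 ≤ k) : 2 ≤ p ^ k := by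
  have h1 := (Fact.out : p.Prime).two_le
  calc 2 ≤ p := h1
    _ = p ^ 1 := (pow_one p).symm
    _ ≤ p ^ k := Nat.pow_le_pow_right (by omega) hk

theorem psi_indep {R : Type*} [Field R] [CharP R p] (hk : 1 ≤ k) (i j : I)
    (F : MvPolynomial I (MvPolynomial I R)) : psi (p ^ k) i F = psi (p ^ k) j F := by
  by_cases hij : i = j
  · rw [hij]
  have hq := two_le_q p k hk
  have hcomm : pderiv j (pderiv i F) = pderiv i (pderiv j F) := by
    have h : ⁅(pderiv j : Derivation (MvPolynomial I R) _ _),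
        (pderiv i : Derivation (MvPolynomial I R) (MvPolynomial I (MvPolynomial I R)) _)⁆ = 0 := by
      apply derivation_ext
      intro m
      rw [Derivation.commutator_apply]
      by_cases h1 : i = m <;> by_cases h2 : j = m <;> simp [pderiv_X, h1, h2]
    have := congrArg (fun D => D F) h
    simpa [Derivation.commutator_apply, sub_eq_zero] using this
  have h1 : pderiv j (F ^ (p ^ k - 1) * pderiv i F) = pderiv i (F ^ (p ^ k - 1) * pderiv j F) := by
    rw [pderiv_mul, pderiv_mul, hcomm, pderiv_pow, pderiv_pow]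
    ring
  obtain ⟨u, hu⟩ : ∃ u : I →₀ ℕ, ∀ m, u m = if m = i ∨ m = j then p ^ k - 2 else p ^ k - 1 :=
    ⟨Finsupp.equivFunOnFinite.symm fun m => if m = i ∨ m = j then p ^ k - 2 else p ^ k - 1,
      fun m => rfl⟩
  have hui : u + Finsupp.single j 1 = omm (p ^ k) i := by
    ext m
    rw [Finsupp.add_apply, hu, omm_apply, Finsupp.single_apply]
    by_cases h1 : m = i
    · have h2 : ¬ j = m := fun h => hij (h1.symm.trans h.symm)
      rw [if_pos (Or.inl h1), if_neg h2, if_pos h1]
      omega
    · by_cases h2 : m = j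
      · rw [if_pos (Or.inr h2), if_pos h2.symm, if_neg h1]
        omega
      · rw [if_neg (by rintro (h | h); exacts [h1 h, h2 h]), if_neg (Ne.symm h2), if_neg h1]
        omega
  have huj : u + Finsupp.single i 1 = omm (p ^ k) j := by
    ext m
    rw [Finsupp.add_apply, hu, omm_apply, Finsupp.single_apply]
    by_cases h1 : m = j
    · have h2 : ¬ i = m := fun h => hij (h.trans h1)
      rw [if_pos (Or.inr h1), if_neg h2, if_pos h1]
      omega
    · by_cases h2 : m = i
      · rw [if_pos (Or.inl h2), if_pos h2.symm, if_neg h1]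
        omega
      · rw [if_neg (by rintro (h | h); exacts [h2 h, h1 h]), if_neg (Ne.symm h2), if_neg h1]
        omega
  have h2 := congrArg (coeff u) h1
  rw [coeff_pderiv, coeff_pderiv, hui, huj, hu, hu, if_pos (Or.inr rfl), if_pos (Or.inl rfl)] at h2
  have h3 : (((p ^ k - 2 : ℕ) : MvPolynomial I R)) + 1 = -1 := by
    have h4 : ((p ^ k : ℕ) : MvPolynomial I R) = 0 := by
      rw [CharP.cast_eq_zero_iff (MvPolynomial I R) p]
      exact dvd_pow_self p (by omega)
    have h5 : p ^ k = (p ^ k - 2) + 2 := by omega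
    rw [h5] at h4
    push_cast at h4
    linear_combination h4
  rw [h3] at h2
  unfold psi
  linear_combination (-1 : MvPolynomial I R) * h2

theorem E_indep (hk : 1 ≤ k) (i j : I) (f : MvPolynomial I K) :
    E (p ^ k) i f = E (p ^ k) j f := psi_indep p k hk i j _

theorem good_of (hk : 1 ≤ k) (τ : MvPolynomial I K →ₐ[K] MvPolynomial I K) (j : I) (u : K)
    (hu : u ≠ 0) (h : ∀ f, E (p ^ k) j (τ f) = C u * τ (E (p ^ k) j f)) : Good (p ^ k) τ := by
  refine ⟨u, hu, fun m f => ?_⟩
  rw [E_indep p k hk m j, E_indep p k hk m j, h]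

theorem Good.comp {q : ℕ} {τ υ : MvPolynomial I K →ₐ[K] MvPolynomial I K} (h1 : Good q τ)
    (h2 : Good q υ) : Good q (τ.comp υ) := by
  obtain ⟨u, hu, h⟩ := h1
  obtain ⟨v, hv, h'⟩ := h2
  refine ⟨u * v, mul_ne_zero hu hv, fun j f => ?_⟩
  have hc : τ (C v) = C v := by
    have : (C v : MvPolynomial I K) = algebraMap K _ v := rfl
    rw [this, AlgHom.commutes]
  rw [AlgHom.comp_apply, AlgHom.comp_apply, h, h', map_mul, hc, C_mul, mul_assoc]

theorem Good.one (q : ℕ) : Good q (AlgHom.id K (MvPolynomial I K)) :=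
  ⟨1, one_ne_zero, fun j f => by simp⟩

theorem psi_map {R S : Type*} [CommRing R] [CommRing S] (φ : R →+* S) (q : ℕ) (l : I)
    (F : MvPolynomial I R) : psi q l (MvPolynomial.map φ F) = φ (psi q l F) := by
  unfold psi
  rw [pderiv_map, ← map_pow, ← map_mul, coeff_map]

/-- The substitution in `t` of an endomorphism. -/
theorem sh_comp (τ : MvPolynomial I K →ₐ[K] MvPolynomial I K)
    (θ : MvPolynomial I (MvPolynomial I K) →ₐ[MvPolynomial I K] MvPolynomial I (MvPolynomial I K))
    (h : ∀ i, sh (τ (X i)) = C (τ (X i)) + θ (X i)) (f : MvPolynomial I K) :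
    sh (τ f) = θ (MvPolynomial.map (τ : MvPolynomial I K →+* MvPolynomial I K) (sh f)) := by
  have hθC : ∀ r, θ (C r) = C r := by
    intro r
    have : (C r : MvPolynomial I (MvPolynomial I K)) = algebraMap (MvPolynomial I K) _ r := rfl
    rw [this, AlgHom.commutes]
  induction f using MvPolynomial.induction_on with
  | C a =>
    have h1 : τ (C a) = C a := by
      have : (C a : MvPolynomial I K) = algebraMap K _ a := rfl
      rw [this, AlgHom.commutes]
    rw [h1, sh_C, map_C]
    show C (C a) = θ (C (τ (C a)))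
    rw [h1, hθC]
  | add f g hf hg => rw [map_add, map_add, hf, hg, map_add, map_add, map_add]
  | mul_X f i hf =>
    rw [map_mul, map_mul, hf, map_mul, map_mul, map_mul, h, sh_X, map_add, map_C, map_X, map_add]
    congr 2
    exact (hθC _).symm

/-- the conditions on `g` -/
structure Adm (q : ℕ) (l : I) (g : MvPolynomial I K) : Prop where
  free : Dg l 0 (sh g)
  top : coeff (omc q l) (sh g) = 0

theorem fun_elem {q : ℕ} (l : I) (g : MvPolynomial I K)
    (τ : MvPolynomial I K →ₐ[K] MvPolynomial I K) (hl : τ (X l) = X l + g)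
    (hi : ∀ i, i ≠ l → τ (X i) = X i) (f : MvPolynomial I K) :
    E q l (τ f) = psi q l (sb l (sh g - C g)
      (MvPolynomial.map (τ : MvPolynomial I K →+* MvPolynomial I K) (sh f))) := by
  unfold E
  rw [sh_comp τ (sb l (sh g - C g))]
  intro i
  by_cases h : i = l
  · rw [h, hl, sb_X_eq, map_add, sh_X, map_add]
    ring
  · rw [hi i h, sb_X_ne l _ h, sh_X]

theorem good_elem (hk : 1 ≤ k) (l : I) (g : MvPolynomial I K) (hg : Adm (p ^ k) l g)
    (hom : omc (p ^ k) l ≠ (0 : I →₀ ℕ))
    (τ : MvPolynomial I K →ₐ[K] MvPolynomial I K) (hl : τ (X l) = X l + g)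
    (hi : ∀ i, i ≠ l → τ (X i) = X i) : Good (p ^ k) τ := by
  refine good_of p k hk τ l 1 one_ne_zero fun f => ?_
  have hh : Dg l 0 (sh g - C g : MvPolynomial I (MvPolynomial I K)) := by
    rw [sub_eq_add_neg]
    exact hg.free.add (Dg.C l g).neg
  have h0 : coeff 0 (sh g - C g : MvPolynomial I (MvPolynomial I K)) = 0 := by
    rw [coeff_sub, coeff_zero_sh, coeff_C, if_pos rfl, sub_self]
  rw [fun_elem l g τ hl hi, psi_sb p k hk hh h0, corr p k hh, coeff_sub, hg.top, coeff_C,
    if_neg (Ne.symm hom), sub_zero, zero_mul, sub_zero, psi_map, C_1, one_mul]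
  rfl

end Pool.Agent.Y108.QG
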