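import Pool.Agent.Y108.QG.Base

/-!
# Elementary substitutions
-/

set_option autoImplicit false

namespace Pool.Agent.Y108.QG

open MvPolynomial Finset

variable {R : Type*} [CommRing R] {I : Type*} [Fintype I] [DecidableEq I]

/-- the exponent `(q-1, …, q-1)` -/
noncomputable def om (q : ℕ) : I →₀ ℕ := Finsupp.equivFunOnFinite.symm fun _ => q - 1

/-- the exponent `(q-1, …, q-1)` lowered by one at `l` -/
noncomputable def omm (q : ℕ) (l : I) : I →₀ ℕ :=
  Finsupp.equivFunOnFinite.symm fun i => if i = l then q - 2 else q - 1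

/-- the exponent `(q-1, …, q-1)` without the variable `l` -/
noncomputable def omc (q : ℕ) (l : I) : I →₀ ℕ :=
  Finsupp.equivFunOnFinite.symm fun i => if i = l then 0 else q - 1

theorem om_apply (q : ℕ) (i : I) : om q i = q - 1 := rfl

theorem omm_apply (q : ℕ) (l i : I) : omm q l i = if i = l then q - 2 else q - 1 := rfl

theorem omc_apply (q : ℕ) (l i : I) : omc q l i = if i = l then 0 else q - 1 := rfl

theorem om_eq {q : ℕ} (hq : 2 ≤ q) (l : I) : (om q : I →₀ ℕ) = Finsupp.single l 1 + omm q l := by
  ext i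
  rw [Finsupp.add_apply, om_apply, omm_apply, Finsupp.single_apply]
  by_cases h : i = l
  · rw [if_pos h, if_pos h.symm]
    omega
  · rw [if_neg h, if_neg (Ne.symm h)]
    omega

/-- the quantity `coeff (F^(q-1) ∂_l F)` -/
noncomputable def psi (q : ℕ) (l : I) (F : MvPolynomial I R) : R :=
  coeff (omm q l) (F ^ (q - 1) * pderiv l F)

/-- the substitution `t_l ↦ t_l + h` -/
noncomputable def sb (l : I) (h : MvPolynomial I R) : MvPolynomial I R →ₐ[R] MvPolynomial I R :=
  aeval fun i => if i = l then X l + h else X i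

theorem sb_X_eq (l : I) (h : MvPolynomial I R) : sb l h (X l) = X l + h := by
  rw [sb, aeval_X, if_pos rfl]

theorem sb_X_ne (l : I) (h : MvPolynomial I R) {i : I} (hi : i ≠ l) : sb l h (X i) = X i := by
  rw [sb, aeval_X, if_neg hi]

theorem sb_fix {l : I} (h : MvPolynomial I R) {g : MvPolynomial I R} (hg : Dg l 0 g) :
    sb l h g = g := by
  have h1 : (sb l h : MvPolynomial I R →+* MvPolynomial I R) g =
      (RingHom.id (MvPolynomial I R)) g := by
    apply hom_congr_vars
    · refine RingHom.ext fun r => ?_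
      simp
    · intro i hi _
      have hil : i ≠ l := by
        rintro rfl
        rw [mem_vars] at hi
        obtain ⟨d, hd, hid⟩ := hi
        rw [Finsupp.mem_support_iff] at hid
        rw [mem_support_iff] at hd
        exact hd (hg d (Nat.pos_of_ne_zero hid))
      exact sb_X_ne l h hil
    · rfl
  exact h1

theorem pderiv_fix {l : I} {g : MvPolynomial I R} (hg : Dg l 0 g) : pderiv l g = 0 := by
  ext s
  rw [coeff_pderiv, coeff_zero, hg, zero_mul]
  simp

theorem pderiv_sb {l : I} {h : MvPolynomial I R} (hh : Dg l 0 h) (F : MvPolynomial I R) :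
    pderiv l (sb l h F) = sb l h (pderiv l F) := by
  induction F using MvPolynomial.induction_on with
  | C a => simp
  | add F G hF hG => rw [map_add, map_add, map_add, map_add, hF, hG]
  | mul_X F i hF =>
    rw [map_mul, pderiv_mul, hF, pderiv_mul, map_add, map_mul, map_mul]
    by_cases hi : i = l
    · subst hi
      rw [sb_X_eq, map_add, pderiv_X_self, pderiv_fix hh, add_zero, map_one]
    · rw [sb_X_ne l h hi, pderiv_X_of_ne hi, map_zero]

variable (p k : ℕ) [Fact p.Prime] [CharP R p]

theorem top_mono {l : I} {h P : MvPolynomial I R} (hh : Dg l 0 h) (h0 : coeff 0 h = 0)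
    (hP : Dg l 0 P) (a : ℕ) :
    coeff (om (p ^ k)) ((X l + h) ^ a * P) = coeff (om (p ^ k)) (X l ^ a * P) := by
  have hq : 0 < p ^ k := pow_pos (Fact.out : p.Prime).pos _
  have hlt : ∀ i, (om (p ^ k) : I →₀ ℕ) i < p ^ k := by
    intro i
    rw [om_apply]
    omega
  by_cases ha : a < p ^ k
  · rw [add_pow, Finset.sum_range_succ, add_mul, coeff_add, Finset.sum_mul, coeff_sum]
    have h1 : ∑ x ∈ Finset.range a, coeff (om (p ^ k))
        (X l ^ x * h ^ (a - x) * ((a.choose x : ℕ) : MvPolynomial I R) * P) = 0 := by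
      apply Finset.sum_eq_zero
      intro x hx
      rw [Finset.mem_range] at hx
      rw [mul_assoc, mul_assoc]
      apply coeff_X_pow_mul_dg
      · refine (hh.pow (a - x)).mul (Dg.mul (N := 0) (M := 0) ?_ hP)
        have h2 : ((a.choose x : ℕ) : MvPolynomial I R) = C ((a.choose x : ℕ) : R) := by simp
        rw [h2]
        exact Dg.C l _
      · rw [om_apply]
        omega
    rw [h1, zero_add, Nat.sub_self, pow_zero, Nat.choose_self]
    simp
  · push Not at ha
    obtain ⟨b, rfl⟩ := Nat.exists_eq_add_of_le ha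
    rw [pow_add, pow_add, mul_assoc, mul_assoc, add_pow_char_pow]
    rw [((InJ.X_pow (R := R) (p ^ k) l).add (InJ.pow_q p k h0)).mul _ _ hlt,
      (InJ.X_pow (R := R) (p ^ k) l).mul _ _ hlt]

theorem top_inv {l : I} {h : MvPolynomial I R} (hh : Dg l 0 h) (h0 : coeff 0 h = 0)
    (G : MvPolynomial I R) : coeff (om (p ^ k)) (sb l h G) = coeff (om (p ^ k)) G := by
  conv_rhs => rw [G.as_sum]
  rw [show sb l h G = sb l h (∑ v ∈ G.support, monomial v (coeff v G)) by rw [← G.as_sum]]
  rw [map_sum, coeff_sum, coeff_sum]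
  apply Finset.sum_congr rfl
  intro s _
  have h1 : sb l h (monomial s (coeff s G)) =
      C (coeff s G) * ((X l + h) ^ s l * ∏ i ∈ Finset.univ.erase l, X i ^ s i) := by
    rw [sb, aeval_monomial, Finsupp.prod_fintype _ _ (fun i => pow_zero _), algebraMap_eq,
      ← Finset.mul_prod_erase Finset.univ _ (Finset.mem_univ l), if_pos rfl]
    congr 2
    apply Finset.prod_congr rfl
    intro i hi
    rw [if_neg (Finset.ne_of_mem_erase hi)]
  have h2 : monomial s (coeff s G) =
      C (coeff s G) * (X l ^ s l * ∏ i ∈ Finset.univ.erase l, X i ^ s i) := by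
    rw [monomial_eq, Finsupp.prod_fintype _ _ (fun i => pow_zero _),
      ← Finset.mul_prod_erase Finset.univ _ (Finset.mem_univ l)]
  rw [h1, h2, coeff_C_mul, coeff_C_mul, top_mono p k hh h0]
  apply Dg.prod
  intro i hi
  exact (Dg.X_ne (Finset.ne_of_mem_erase hi)).pow _

/-- **The effect of an elementary substitution.** -/
theorem psi_sb (hk : 1 ≤ k) {l : I} {h : MvPolynomial I R} (hh : Dg l 0 h) (h0 : coeff 0 h = 0)
    (F : MvPolynomial I R) :
    psi (p ^ k) l (sb l h F) = psi (p ^ k) l F -
      coeff (om (p ^ k)) (h * (F ^ (p ^ k - 1) * pderiv l F)) := by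
  have hq : 2 ≤ p ^ k := by
    have h1 := (Fact.out : p.Prime).two_le
    calc 2 ≤ p := h1
      _ = p ^ 1 := (pow_one p).symm
      _ ≤ p ^ k := Nat.pow_le_pow_right (by omega) hk
  obtain ⟨W, hW⟩ : ∃ W, W = F ^ (p ^ k - 1) * pderiv l F := ⟨_, rfl⟩
  have h1 : ∀ G : MvPolynomial I R, coeff (omm (p ^ k) l) G = coeff (om (p ^ k)) (X l * G) := by
    intro G
    rw [om_eq hq l, coeff_X_mul]
  have h2 : psi (p ^ k) l (sb l h F) = coeff (om (p ^ k)) (X l * sb l h W) := by
    rw [psi, pderiv_sb hh, ← map_pow, ← map_mul, h1, hW]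
  have h3 : X l * sb l h W = sb l h (X l * W) - sb l h (h * W) := by
    rw [map_mul, map_mul, sb_X_eq, sb_fix h hh]
    ring
  rw [h2, h3, coeff_sub, top_inv p k hh h0, top_inv p k hh h0, psi, h1, ← hW]

/-- the correction term -/
theorem corr {l : I} {h : MvPolynomial I R} (hh : Dg l 0 h) (F : MvPolynomial I R) :
    coeff (om (p ^ k)) (h * (F ^ (p ^ k - 1) * pderiv l F)) =
      coeff (omc (p ^ k) l) h * coeff (Finsupp.single l (p ^ k)) (F ^ p ^ k) := by
  have hq : 0 < p ^ k := pow_pos (Fact.out : p.Prime).pos _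
  rw [coeff_mul]
  rw [Finset.sum_eq_single (omc (p ^ k) l, Finsupp.single l (p ^ k - 1))]
  · show coeff (omc (p ^ k) l) h * coeff (Finsupp.single l (p ^ k - 1)) _ = _
    rw [coeff_key hq F l _ (by rw [Finsupp.single_eq_same]), ← Finsupp.single_add]
    congr 3
    omega
  · rintro ⟨a, b⟩ hab hne
    rw [Finset.HasAntidiagonal.mem_antidiagonal] at hab
    have hab' : ∀ i, a i + b i = p ^ k - 1 := by
      intro i
      have h1 : a i + b i = (om (p ^ k) : I →₀ ℕ) i := by rw [← hab]; rfl
      rw [h1, om_apply]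
    show coeff a h * coeff b (F ^ (p ^ k - 1) * pderiv l F) = 0
    by_cases hal : a l = 0
    · have hbl : b l = p ^ k - 1 := by
        have := hab' l
        omega
      by_cases hex : ∃ i, i ≠ l ∧ b i ≠ 0
      · obtain ⟨i, hil, hbi⟩ := hex
        rw [coeff_key hq F l b hbl, coeff_pow_q p k F, mul_zero]
        intro u hu
        have h1 := congrArg (fun w : I →₀ ℕ => w i) hu
        simp only [Finsupp.add_apply, Finsupp.smul_apply, smul_eq_mul] at h1
        rw [Finsupp.single_eq_of_ne (by exact hil), add_zero] at h1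
        have h2 := hab' i
        have h3 : b i < p ^ k := by omega
        rw [h1] at h3 hbi
        have h4 : u i ≠ 0 := fun h => hbi (by rw [h, mul_zero])
        exact absurd h3 (not_lt.2 (Nat.le_mul_of_pos_right _ (Nat.pos_of_ne_zero h4)))
      · push Not at hex
        exfalso
        apply hne
        have hb : b = Finsupp.single l (p ^ k - 1) := by
          ext i
          rw [Finsupp.single_apply]
          split_ifs with h
          · rw [← h, hbl]
          · exact hex i (Ne.symm h)
        have ha : a = omc (p ^ k) l := by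
          ext i
          rw [omc_apply]
          split_ifs with h
          · rw [h, hal]
          · have h1 := hab' i
            rw [hex i h] at h1
            exact h1
        rw [ha, hb]
    · rw [hh a (Nat.pos_of_ne_zero hal), zero_mul]
  · intro hn
    exfalso
    apply hn
    rw [Finset.HasAntidiagonal.mem_antidiagonal]
    ext i
    rw [Finsupp.add_apply, omc_apply, om_apply, Finsupp.single_apply]
    by_cases h : i = l
    · rw [if_pos h, if_pos h.symm, zero_add]
    · rw [if_neg h, if_neg (Ne.symm h), add_zero]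

end Pool.Agent.Y108.QG
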